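import Pool.Agent.MP_3ce0a0_al.H79.XS

/-
Consequences of the Nielsen relations when all transvections are involutions.
-/

namespace Pool.Agent.MP_3ce0a0_al.H95

open Equiv Pool.Agent.MP_3ce0a0_al.H79 Pool.Agent.MP_3ce0a0_al.H79.X

section
variable {ι W : Type} [DecidableEq ι] [Group W] (N : NS ι W)
  (h : ∀ a b, a ≠ b → N.ρ a b * N.ρ a b = 1)

/-- the product of the right and the left transvection. -/
def kq (a b : ι) : W := N.ρ a b * N.lam a b

theorem ecan (a : ι) (x : W) : N.ε a * (N.ε a * x) = x := by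
  rw [← mul_assoc, N.ε_sq, one_mul]

theorem ee (a b : ι) : Commute (N.ε a) (N.ε b) := N.ε_comm a b

theorem comm_of_inv {x y : W} (hx : x * x = 1) (hy : y * y = 1) (hxy : (x * y) * (x * y) = 1) :
    Commute x y := by
  have h1 : x * y = (x * y)⁻¹ := eq_inv_of_mul_eq_one_left hxy
  have h2 : x⁻¹ = x := (eq_inv_of_mul_eq_one_left hx).symm
  have h3 : y⁻¹ = y := (eq_inv_of_mul_eq_one_left hy).symm
  rw [mul_inv_rev, h2, h3] at h1
  exact h1

include h

theorem rinv {a b : ι} (hab : a ≠ b) : (N.ρ a b)⁻¹ = N.ρ a b :=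
  (eq_inv_of_mul_eq_one_left (h a b hab)).symm

theorem rcan {a b : ι} (hab : a ≠ b) (x : W) : N.ρ a b * (N.ρ a b * x) = x := by
  rw [← mul_assoc, h a b hab, one_mul]

theorem lam_eq {a b : ι} (hab : a ≠ b) : N.lam a b = N.ε a * N.ρ a b * N.ε a := by
  have h1 := N.ε_left a b hab
  have h2 : (N.ε a * N.ρ a b * N.ε a) * (N.ε a * N.ρ a b * N.ε a) = 1 := by
    simp only [mul_assoc, ecan, rcan N h hab, N.ε_sq]
  have h3 := eq_inv_of_mul_eq_one_left h2
  rw [h3, h1, inv_inv]

theorem lsq {a b : ι} (hab : a ≠ b) : N.lam a b * N.lam a b = 1 := by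
  rw [lam_eq N h hab]
  simp only [mul_assoc, ecan, rcan N h hab, N.ε_sq]

theorem lcan {a b : ι} (hab : a ≠ b) (x : W) : N.lam a b * (N.lam a b * x) = x := by
  rw [← mul_assoc, lsq N h hab, one_mul]

theorem er {a b c : ι} (hab : a ≠ b) (hca : c ≠ a) : Commute (N.ε c) (N.ρ a b) := by
  by_cases hcb : c = b
  · subst hcb
    have h1 := N.ε_right a c hab
    rw [rinv N h hab] at h1
    have h2 : N.ε c * N.ρ a c = N.ε c * N.ρ a c * N.ε c * N.ε c := by
      rw [mul_assoc (N.ε c * N.ρ a c), N.ε_sq, mul_one]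
    rw [h1] at h2
    exact h2
  · exact N.ε_other a b c hab hca hcb

theorem el {a b c : ι} (hab : a ≠ b) (hca : c ≠ a) : Commute (N.ε c) (N.lam a b) := by
  rw [lam_eq N h hab]
  exact ((ee N c a).mul_right (er N h hab hca)).mul_right (ee N c a)

theorem relA {a b c : ι} (hab : a ≠ b) (hca : c ≠ a) (hcb : c ≠ b) :
    N.ρ a b * N.ρ c a * N.ρ a b = N.ρ c b * N.ρ c a := by
  have h1 := N.conj_ρ a b c hab hca hcb
  rw [rinv N h hca] at h1
  calc N.ρ a b * N.ρ c a * N.ρ a b
      = N.ρ a b * (N.ρ c a * N.ρ a b * N.ρ c a) * N.ρ c a := by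
        simp only [mul_assoc, h c a hca, mul_one]
    _ = N.ρ c b * N.ρ c a := by rw [h1]; simp only [rcan N h hab]

theorem rr {a b c : ι} (hab : a ≠ b) (hac : a ≠ c) : Commute (N.ρ a b) (N.ρ a c) := by
  by_cases hbc : b = c
  · subst hbc; exact Commute.refl _
  · refine comm_of_inv (h a b hab) (h a c hac) ?_
    rw [← relA N h (Ne.symm hbc) hac hab]
    simp only [mul_assoc, rcan N h (Ne.symm hbc), rcan N h hac, h c b (Ne.symm hbc)]

theorem relB {a b c : ι} (hab : a ≠ b) (hca : c ≠ a) (hcb : c ≠ b) :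
    N.ρ a b * N.lam c a * N.ρ a b = N.lam c b * N.lam c a := by
  have h1 := relA N h hab hca hcb
  have h2 := (er N h hab hca).eq
  rw [lam_eq N h hca, lam_eq N h hcb]
  calc N.ρ a b * (N.ε c * N.ρ c a * N.ε c) * N.ρ a b
      = (N.ρ a b * N.ε c) * N.ρ c a * (N.ε c * N.ρ a b) := by simp only [mul_assoc]
    _ = (N.ε c * N.ρ a b) * N.ρ c a * (N.ρ a b * N.ε c) := by rw [h2]
    _ = N.ε c * (N.ρ a b * N.ρ c a * N.ρ a b) * N.ε c := by simp only [mul_assoc]
    _ = _ := by rw [h1]; simp only [mul_assoc, ecan]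

omit h in
theorem rl {a b c : ι} (hab : a ≠ b) (hac : a ≠ c) : Commute (N.ρ a b) (N.lam a c) :=
  N.ρ_lam a b a c hab hac hac hab

theorem ll {a b c : ι} (hab : a ≠ b) (hac : a ≠ c) : Commute (N.lam a b) (N.lam a c) := by
  have h1 := (rr N h hab hac).eq
  rw [lam_eq N h hab, lam_eq N h hac]
  show _ = _
  calc N.ε a * N.ρ a b * N.ε a * (N.ε a * N.ρ a c * N.ε a)
      = N.ε a * (N.ρ a b * N.ρ a c) * N.ε a := by simp only [mul_assoc, ecan]
    _ = _ := by rw [h1]; simp only [mul_assoc, ecan]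

theorem rk {a b c : ι} (hab : a ≠ b) (hac : a ≠ c) : Commute (N.ρ a b) (kq N a c) :=
  (rr N h hab hac).mul_right (rl N hab hac)

theorem lk {a b c : ι} (hab : a ≠ b) (hac : a ≠ c) : Commute (N.lam a b) (kq N a c) :=
  (rl N hac hab).symm.mul_right (ll N h hab hac)

theorem kk' {a b c : ι} (hab : a ≠ b) (hac : a ≠ c) : Commute (kq N a b) (kq N a c) :=
  (rk N h hab hac).mul_left (lk N h hab hac)

theorem ek {a b c : ι} (hab : a ≠ b) (hca : c ≠ a) : Commute (N.ε c) (kq N a b) :=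
  (er N h hab hca).mul_right (el N h hab hca)

theorem ksq {a b : ι} (hab : a ≠ b) : kq N a b * kq N a b = 1 := by
  have h1 := (rl N hab hab).eq
  calc kq N a b * kq N a b = N.ρ a b * N.lam a b * (N.lam a b * N.ρ a b) := by
        rw [← h1]; rfl
    _ = 1 := by simp only [mul_assoc, lcan N h hab, h a b hab]

theorem ger0 {a b : ι} (hab : a ≠ b) :
    N.ρ a b * N.ρ b a * N.lam a b = N.π (swap a b) * N.ε b := by
  have h1 := N.gersten a b hab
  rwa [rinv N h hab.symm] at h1

theorem ger1 {a b : ι} (hab : a ≠ b) :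
    N.lam a b * N.ρ b a * N.ρ a b = N.π (swap a b) * N.ε a := by
  have h1 := ger0 N h hab
  have h2 := N.π_ε (swap a b) b
  rw [swap_apply_right] at h2
  have h3 := (er N h hab.symm hab).eq
  calc N.lam a b * N.ρ b a * N.ρ a b
      = N.ε a * (N.ρ a b * (N.ε a * N.ρ b a) * N.ρ a b * N.ε a) * N.ε a := by
        rw [lam_eq N h hab]; simp only [mul_assoc, N.ε_sq, mul_one]
    _ = N.ε a * (N.ρ a b * N.ρ b a * N.lam a b) * N.ε a := by
        rw [h3, lam_eq N h hab]; simp only [mul_assoc]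
    _ = _ := by rw [h1, h2]; simp only [ecan]

theorem ger2 {a b : ι} (hab : a ≠ b) :
    N.ρ a b * N.lam b a * N.lam a b = N.π (swap a b) * N.ε a := by
  have h1 := ger0 N h hab
  have h2 := N.π_ε (swap a b) a
  rw [swap_apply_left] at h2
  have h3 := (er N h hab hab.symm).eq
  have h4 := (el N h hab hab.symm).eq
  calc N.ρ a b * N.lam b a * N.lam a b
      = (N.ρ a b * N.ε b) * N.ρ b a * (N.ε b * N.lam a b) := by
        rw [lam_eq N h hab.symm]; simp only [mul_assoc]
    _ = N.ε b * (N.ρ a b * N.ρ b a * N.lam a b) * N.ε b := by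
        rw [← h3, h4]; simp only [mul_assoc]
    _ = _ := by rw [h1, h2]; simp only [mul_assoc, N.ε_sq, mul_one]

theorem ger3 {a b : ι} (hab : a ≠ b) : kq N a b * N.lam b a = N.ρ b a * kq N a b := by
  have h1 := (ger1 N h hab).trans (ger2 N h hab).symm
  have h2 := (rl N hab hab).eq
  calc kq N a b * N.lam b a = N.lam a b * (N.ρ a b * N.lam b a * N.lam a b) * N.lam a b := by
        unfold kq; rw [h2]; simp only [mul_assoc, lsq N h hab, mul_one]
    _ = N.ρ b a * kq N a b := by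
        rw [← h1]; unfold kq; simp only [mul_assoc, lcan N h hab]

theorem relE {a b : ι} (hab : a ≠ b) : N.ε a * N.ε b = kq N b a * kq N a b := by
  have h0 := ger0 N h hab
  have h2 := ger2 N h hab
  have h3 := ger3 N h hab.symm
  have h4 := (rl N hab.symm hab.symm).eq
  have h5 : N.π (swap a b) = N.ρ a b * N.lam b a * N.lam a b * N.ε a := by
    rw [h2, mul_assoc, N.ε_sq, mul_one]
  rw [h5] at h0
  have h6 : N.ε a * N.ε b = N.lam a b * (N.lam b a * N.ρ b a) * N.lam a b := by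
    calc N.ε a * N.ε b = N.lam a b * (N.lam b a * (N.ρ a b *
          (N.ρ a b * N.lam b a * N.lam a b * N.ε a * N.ε b))) := by
          simp only [mul_assoc, rcan N h hab, lcan N h hab, lcan N h hab.symm]
      _ = _ := by rw [← h0]; simp only [mul_assoc, rcan N h hab]
  rw [h6, ← h4]
  have h7 : N.lam a b * kq N b a = kq N b a * N.ρ a b := by
    calc N.lam a b * kq N b a = kq N b a * (kq N b a * N.lam a b) * kq N b a := by
          rw [← mul_assoc, ksq N h hab.symm, one_mul]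
      _ = _ := by rw [h3]; simp only [mul_assoc, ksq N h hab.symm, mul_one]
  calc N.lam a b * (N.ρ b a * N.lam b a) * N.lam a b = N.lam a b * kq N b a * N.lam a b := rfl
    _ = _ := by rw [h7, mul_assoc]; rfl

theorem kind {a b c : ι} (hac : a ≠ c) (hbc : b ≠ c) : kq N b c = kq N a c := by
  by_cases hab : a = b
  · rw [hab]
  have h1 := relE N h hab
  have h2 := (er N h hbc hab).eq
  have h3 := (rk N h hbc (Ne.symm hab)).eq
  have h4 := relA N h hbc hab hac
  have h5 := relB N h hbc hab hac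
  have h6 := (rl N hab hac).eq
  have h7 := (rl N hbc hbc).eq
  have hL : N.ρ b c * (N.ε a * N.ε b) * N.ρ b c = N.ε a * N.ε b * kq N b c := by
    unfold kq
    rw [h7, lam_eq N h hbc, ← mul_assoc (N.ρ b c), ← h2]
    simp only [mul_assoc, ecan]
  have hR : N.ρ b c * (kq N b a * kq N a b) * N.ρ b c = kq N b a * (kq N a c * kq N a b) := by
    calc N.ρ b c * (kq N b a * kq N a b) * N.ρ b c
        = kq N b a * ((N.ρ b c * N.ρ a b * N.ρ b c) * (N.ρ b c * N.lam a b * N.ρ b c)) := by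
          rw [← mul_assoc (N.ρ b c), h3]
          unfold kq
          simp only [mul_assoc, rcan N h hbc]
      _ = kq N b a * (N.ρ a c * (N.ρ a b * N.lam a c) * N.lam a b) := by
          rw [h4, h5]; simp only [mul_assoc]
      _ = _ := by rw [h6]; unfold kq; simp only [mul_assoc]
  rw [h1, hR, ← (kk' N h hab hac).eq, mul_assoc] at hL
  exact (mul_left_cancel (mul_left_cancel hL)).symm

theorem zsw {a b : ι} (hab : a ≠ b) : N.ε a * kq N b a = N.ε b * kq N a b := by
  have h1 := relE N h hab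
  calc N.ε a * kq N b a = N.ε a * (kq N b a * kq N a b) * kq N a b := by
        simp only [mul_assoc, ksq N h hab, mul_one]
    _ = _ := by rw [← h1, ecan]

theorem zind {a c a₀ c₀ : ι} (hac : a ≠ c) (h0 : a₀ ≠ c₀) :
    N.ε c * kq N a c = N.ε c₀ * kq N a₀ c₀ := by
  by_cases hc : c = c₀
  · subst hc; rw [kind N h hac h0]
  · rw [kind N h (Ne.symm hc) hac, zsw N h hc, kind N h h0 hc]

end

theorem third {ι : Type} [Fintype ι] [DecidableEq ι] (hn : 5 ≤ Fintype.card ι) (a b : ι) :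
    ∃ c, c ≠ a ∧ c ≠ b := by
  by_contra hc
  have h1 : (Finset.univ : Finset ι) ⊆ {a, b} := fun c _ => by
    by_contra h2
    simp only [Finset.mem_insert, Finset.mem_singleton, not_or] at h2
    exact hc ⟨c, h2⟩
  have h2 := Finset.card_le_card h1
  have h3 : ({a, b} : Finset ι).card ≤ 2 := Finset.card_le_two
  rw [Finset.card_univ] at h2
  omega

theorem sbfin : SBfin := by
  intro ι W _ _ _ N hn h
  obtain ⟨c₀⟩ : Nonempty ι := Fintype.card_pos_iff.1 (by omega)
  obtain ⟨a₀, h0, -⟩ := third hn c₀ c₀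
  have hz : ∀ a c, a ≠ c → N.ε c₀ * kq N a₀ c₀ = N.ε c * kq N a c := fun a c hac =>
    (zind N h hac h0).symm
  have hr : ∀ a b, a ≠ b → Commute (N.ε c₀ * kq N a₀ c₀) (N.ρ a b) := fun a b hab => by
    obtain ⟨c, hca, -⟩ := third hn a b
    rw [hz a c hca.symm]
    exact (er N h hab hca).mul_left (rk N h hab hca.symm).symm
  refine ⟨N.ε c₀ * kq N a₀ c₀, ?_, ?_, ?_, hr, ?_, fun a b c => rr N h, fun a b c => er N h,
    ?_, ?_⟩
  · calc N.ε c₀ * kq N a₀ c₀ * (N.ε c₀ * kq N a₀ c₀)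
        = N.ε c₀ * kq N a₀ c₀ * (kq N a₀ c₀ * N.ε c₀) := by rw [(ek N h h0 h0.symm).eq]
      _ = N.ε c₀ * (kq N a₀ c₀ * kq N a₀ c₀) * N.ε c₀ := by simp only [mul_assoc]
      _ = 1 := by rw [ksq N h h0, mul_one, N.ε_sq]
  · intro a
    obtain ⟨b, hb, -⟩ := third hn a a
    rw [hz b a hb]
    exact (Commute.refl _).mul_left (ek N h hb hb.symm).symm
  · intro σ
    have h1 := N.π_ε σ c₀
    have h2 := N.π_ρ σ a₀ c₀ h0
    have h3 := N.π_lam σ a₀ c₀ h0
    show _ = _
    symm
    calc N.π σ * (N.ε c₀ * kq N a₀ c₀)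
        = N.ε (σ c₀) * (N.ρ (σ a₀) (σ c₀) * (N.lam (σ a₀) (σ c₀) * N.π σ)) := by
          unfold kq
          rw [← mul_assoc, h1, ← h3, ← mul_assoc (N.ρ _ _), ← h2]
          simp only [mul_assoc]
      _ = _ := by
          rw [hz (σ a₀) (σ c₀) (σ.injective.ne h0)]
          unfold kq
          simp only [mul_assoc]
  · intro a b c hab hcb
    by_cases hac : a = c
    · subst hac; exact Commute.refl _
    · exact N.ρ_ρ a b c b hab hcb hac hab hcb
  · intro a b hab
    rw [hz a b hab, (ek N h hab hab.symm).eq, mul_assoc (kq N a b), N.ε_sq, mul_one, mul_assoc,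
      ← (rk N h hab hab).eq]
    unfold kq
    rw [rcan N h hab, lam_eq N h hab]
    simp only [mul_assoc, ecan]
  · intro a b hab
    have h1 := (((hr a b hab).mul_right (hr b a hab.symm)).mul_right (hr a b hab)).eq
    rw [h1, hz a b hab, (ek N h hab hab.symm).eq]
    unfold kq
    calc N.π (swap a b) = N.π (swap a b) * N.ε b * N.ε b := by
          rw [mul_assoc, N.ε_sq, mul_one]
      _ = _ := by rw [← ger0 N h hab]; simp only [mul_assoc, rcan N h hab]

end Pool.Agent.MP_3ce0a0_al.H95
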